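import Mathlib
import Pool.Agent.H319R2.LeighBridge

set_option autoImplicit false

/-!
Kakutani's `5x+1` map as a generalised Collatz map modulo 6: the data, the class of Leigh's chain (all
residue classes modulo 6) and the number `Λ < 1`.
-/

namespace Pool.Agent.H749.Kak

open Finset Pool.Agent.H319R2.Leigh

/-- Kakutani's map: `n/2` if `n` is even, `n/3` if `n` is odd and divisible by `3`, `5n+1` otherwise -/
def C (n : ℕ) : ℕ := if n % 2 = 0 then n / 2 else if n % 3 = 0 then n / 3 else 5 * n + 1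

def km (i : ℤ) : ℤ := if i = 1 ∨ i = 5 then 30 else if i = 3 then 2 else 3
def kr (i : ℤ) : ℤ := if i = 1 ∨ i = 5 then -6 else 0
def kb (i : ℤ) : ℤ := if i = 1 ∨ i = 5 then 5 else 1
def ke (i : ℤ) : ℕ := if i = 1 ∨ i = 5 then 6 else if i = 3 then 2 else 3

theorem kdata : Data 6 km kr kb ke where
  two_le := by norm_num
  fac := by
    intro i h0 h1
    have h1' : i < 6 := by exact_mod_cast h1
    interval_cases i <;> simp [km, kb, ke]
  cop := by
    intro i h0 h1
    have h1' : i < 6 := by exact_mod_cast h1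
    interval_cases i <;> simp [kb] <;> first | exact isCoprime_one_left | exact ⟨-1, 1, by norm_num⟩
  pos := by
    intro i h0 h1
    have h1' : i < 6 := by exact_mod_cast h1
    interval_cases i <;> simp [ke]
  dvd_pow := by
    intro i h0 h1
    have h1' : i < 6 := by exact_mod_cast h1
    refine ⟨1, ?_⟩
    interval_cases i <;> simp [ke]
  cong := by
    intro i h0 h1
    have h1' : i < 6 := by exact_mod_cast h1
    interval_cases i <;> simp [kr, km] <;> decide

theorem T_eq (n : ℕ) : T 6 km kr (n : ℤ) = ((C n : ℕ) : ℤ) := by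
  unfold T C
  have h : (n : ℤ) % ((6 : ℕ) : ℤ) = ((n % 6 : ℕ) : ℤ) := by push_cast; rfl
  rw [h]
  have h6 : n % 6 < 6 := Nat.mod_lt _ (by norm_num)
  obtain ⟨s, hs⟩ : ∃ s, n % 6 = s := ⟨_, rfl⟩
  rw [hs]
  rw [hs] at h6
  interval_cases s
  · rw [if_pos (by omega)]; simp [km, kr]; omega
  · rw [if_neg (by omega), if_neg (by omega)]; simp [km, kr]; omega
  · rw [if_pos (by omega)]; simp [km, kr]; omega
  · rw [if_neg (by omega), if_pos (by omega)]; simp [km, kr]; omega
  · rw [if_pos (by omega)]; simp [km, kr]; omega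
  · rw [if_neg (by omega), if_neg (by omega)]; simp [km, kr]; omega

theorem iter_eq (k : ℕ) : ∀ n : ℕ, (T 6 km kr)^[k] (n : ℤ) = ((C^[k] n : ℕ) : ℤ) := by
  induction k with
  | zero => intro n; rfl
  | succ k ih => intro n; rw [Function.iterate_succ_apply, Function.iterate_succ_apply, T_eq, ih]

/-- the states -/
def kC : Finset (ℤ × ℕ) := {(0, 1), (1, 1), (2, 1), (3, 1), (4, 1), (5, 1)}

/-- the stationary distribution -/
noncomputable def kρ (B : ℤ × ℕ) : ℝ :=
  if B.1 = 0 then 8 / 27 else if B.1 = 1 then 4 / 27 else if B.1 = 2 then 4 / 27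
  else if B.1 = 3 then 6 / 27 else if B.1 = 4 then 2 / 27 else 3 / 27

theorem mem_kC (B : ℤ × ℕ) : B ∈ kC ↔ B.2 = 1 ∧ 0 ≤ B.1 ∧ B.1 < 6 := by
  obtain ⟨j, k⟩ := B
  simp only [kC, mem_insert, mem_singleton, Prod.mk.injEq]
  constructor
  · rintro (h | h | h | h | h | h) <;> omega
  · rintro ⟨h1, h2, h3⟩
    omega

/-- the transition probabilities between the states -/
theorem P_val (i j : ℤ) (hi0 : 0 ≤ i) (hi : i < 6) (hj0 : 0 ≤ j) (hj : j < 6) :
    P 6 km kr ke (i, 1) (j, 1) =
      if i = 1 then (if j = 0 then 1 else 0) else if i = 5 then (if j = 2 then 1 else 0)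
      else if i = 3 then (if j % 2 = 1 then 1 / 3 else 0)
      else (if (j - i / 2) % 3 = 0 then 1 / 2 else 0) := by
  unfold P T
  interval_cases i <;> interval_cases j <;> simp [km, kr, ke, Int.ModEq] <;> norm_num

theorem P_pos_mem {B B' : ℤ × ℕ} (hB : B ∈ kC) (h : 0 < P 6 km kr ke B B') : B' ∈ kC := by
  rw [mem_kC] at hB ⊢
  obtain ⟨i, k⟩ := B
  obtain ⟨j, l⟩ := B'
  obtain ⟨h1, h2, h3⟩ := hB
  simp only at h1 h2 h3
  subst h1
  unfold P at h
  split_ifs at h with hc
  · obtain ⟨hc1, hc2, hc3, -⟩ := hc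
    simp only at hc1 hc2 hc3 ⊢
    have h6 : i % ((6 : ℕ) : ℤ) = i := Int.emod_eq_of_lt h2 (by exact_mod_cast h3)
    rw [h6] at hc1
    have hl : l = 1 := by
      rw [hc1]
      interval_cases i <;> simp [ke]
    subst hl
    refine ⟨rfl, hc2, ?_⟩
    push_cast at hc3
    omega
  · exact absurd h (lt_irrefl 0)

theorem step {i j : ℤ} (hi0 : 0 ≤ i) (hi : i < 6) (hj0 : 0 ≤ j) (hj : j < 6)
    (h : 0 < (if i = 1 then (if j = 0 then (1 : ℝ) else 0) else if i = 5 then (if j = 2 then 1 else 0)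
      else if i = 3 then (if j % 2 = 1 then 1 / 3 else 0)
      else (if (j - i / 2) % 3 = 0 then 1 / 2 else 0))) :
    Relation.ReflTransGen (fun X Y => 0 < P 6 km kr ke X Y) (i, 1) (j, 1) := by
  apply Relation.ReflTransGen.single
  rw [P_val i j hi0 hi hj0 hj]
  exact h

theorem to_zero (i : ℤ) (h0 : 0 ≤ i) (h1 : i < 6) :
    Relation.ReflTransGen (fun X Y => 0 < P 6 km kr ke X Y) (i, 1) ((0 : ℤ), 1) := by
  have e10 := step (i := 1) (j := 0) (by norm_num) (by norm_num) (by norm_num) (by norm_num) (by norm_num)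
  have e31 := step (i := 3) (j := 1) (by norm_num) (by norm_num) (by norm_num) (by norm_num) (by norm_num)
  have e21 := step (i := 2) (j := 1) (by norm_num) (by norm_num) (by norm_num) (by norm_num) (by norm_num)
  have e52 := step (i := 5) (j := 2) (by norm_num) (by norm_num) (by norm_num) (by norm_num) (by norm_num)
  have e42 := step (i := 4) (j := 2) (by norm_num) (by norm_num) (by norm_num) (by norm_num) (by norm_num)
  interval_cases i
  · exact Relation.ReflTransGen.refl
  · exact e10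
  · exact e21.trans e10
  · exact e31.trans e10
  · exact e42.trans (e21.trans e10)
  · exact e52.trans (e21.trans e10)

theorem from_zero (i : ℤ) (h0 : 0 ≤ i) (h1 : i < 6) :
    Relation.ReflTransGen (fun X Y => 0 < P 6 km kr ke X Y) ((0 : ℤ), 1) (i, 1) := by
  have e03 := step (i := 0) (j := 3) (by norm_num) (by norm_num) (by norm_num) (by norm_num) (by norm_num)
  have e31 := step (i := 3) (j := 1) (by norm_num) (by norm_num) (by norm_num) (by norm_num) (by norm_num)
  have e35 := step (i := 3) (j := 5) (by norm_num) (by norm_num) (by norm_num) (by norm_num) (by norm_num)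
  have e52 := step (i := 5) (j := 2) (by norm_num) (by norm_num) (by norm_num) (by norm_num) (by norm_num)
  have e24 := step (i := 2) (j := 4) (by norm_num) (by norm_num) (by norm_num) (by norm_num) (by norm_num)
  interval_cases i
  · exact Relation.ReflTransGen.refl
  · exact e03.trans e31
  · exact e03.trans (e35.trans e52)
  · exact e03
  · exact e03.trans (e35.trans (e52.trans e24))
  · exact e03.trans e35

theorem sum_kC (f : ℤ × ℕ → ℝ) :
    ∑ B ∈ kC, f B = f (0, 1) + f (1, 1) + f (2, 1) + f (3, 1) + f (4, 1) + f (5, 1) := by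
  unfold kC
  rw [sum_insert (by decide), sum_insert (by decide), sum_insert (by decide), sum_insert (by decide),
    sum_insert (by decide), sum_singleton]
  ring

theorem kclass : Class 6 km kr ke kC kρ where
  state := by
    intro B hB
    rw [mem_kC] at hB
    obtain ⟨h1, h2, h3⟩ := hB
    refine ⟨h2, ?_, 0, ?_⟩
    · rw [h1]; push_cast; omega
    · rw [h1]; simp
  closed := fun B hB B' h => P_pos_mem hB h
  comm := by
    intro B hB B' hB'
    rw [mem_kC] at hB hB'
    obtain ⟨i, k⟩ := B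
    obtain ⟨j, l⟩ := B'
    obtain ⟨h1, h2, h3⟩ := hB
    obtain ⟨h4, h5, h6⟩ := hB'
    simp only at h1 h2 h3 h4 h5 h6
    subst h1 h4
    exact (to_zero i h2 h3).trans (from_zero j h5 h6)
  nonneg := by
    intro B _
    unfold kρ
    split_ifs <;> norm_num
  sum_one := by
    rw [sum_kC]
    simp [kρ]
    norm_num
  stat := by
    intro B' hB'
    rw [mem_kC] at hB'
    obtain ⟨j, l⟩ := B'
    obtain ⟨h1, h2, h3⟩ := hB'
    simp only at h1 h2 h3
    subst h1
    rw [sum_kC]
    rw [P_val 0 j (by norm_num) (by norm_num) h2 h3, P_val 1 j (by norm_num) (by norm_num) h2 h3,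
      P_val 2 j (by norm_num) (by norm_num) h2 h3, P_val 3 j (by norm_num) (by norm_num) h2 h3,
      P_val 4 j (by norm_num) (by norm_num) h2 h3, P_val 5 j (by norm_num) (by norm_num) h2 h3]
    interval_cases j <;> simp [kρ] <;> norm_num

theorem mem_S (x : ℤ) : x ∈ S 6 kC := by
  refine ⟨(x % 6, 1), ?_, ?_⟩
  · rw [mem_kC]
    exact ⟨rfl, Int.emod_nonneg _ (by norm_num), Int.emod_lt_of_pos _ (by norm_num)⟩
  · show x ≡ x % 6 [ZMOD ((6 * 1 : ℕ) : ℤ)]
    exact (Int.mod_modEq x 6).symm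

theorem freq_val (i : ℕ) (hi : i < 6) : freq 6 kC kρ i = kρ ((i : ℤ), 1) := by
  unfold freq
  rw [sum_filter, sum_kC]
  interval_cases i <;> simp

theorem lam_pow : Lam 6 km kC kρ ^ 27 = 5 ^ 7 / (2 ^ 14 * 3 ^ 6) := by
  unfold Lam
  rw [← Finset.prod_pow]
  have h : ∀ i ∈ range 6, ((|(km (i : ℤ) : ℝ)| / ((6 : ℕ) : ℝ)) ^ freq 6 kC kρ i) ^ 27 =
      (|(km (i : ℤ) : ℝ)| / 6) ^ (27 * kρ ((i : ℤ), 1)) := by
    intro i hi
    rw [freq_val i (mem_range.1 hi), ← Real.rpow_natCast, ← Real.rpow_mul (by positivity)]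
    congr 1
    push_cast
    ring
  rw [Finset.prod_congr rfl h]
  simp only [prod_range_succ, prod_range_zero]
  have e0 : (27 : ℝ) * kρ (((0 : ℕ) : ℤ), 1) = ((8 : ℕ) : ℝ) := by simp [kρ]; norm_num
  have e1 : (27 : ℝ) * kρ (((1 : ℕ) : ℤ), 1) = ((4 : ℕ) : ℝ) := by simp [kρ]; norm_num
  have e2 : (27 : ℝ) * kρ (((2 : ℕ) : ℤ), 1) = ((4 : ℕ) : ℝ) := by simp [kρ]; norm_num
  have e3 : (27 : ℝ) * kρ (((3 : ℕ) : ℤ), 1) = ((6 : ℕ) : ℝ) := by simp [kρ]; norm_num
  have e4 : (27 : ℝ) * kρ (((4 : ℕ) : ℤ), 1) = ((2 : ℕ) : ℝ) := by simp [kρ]; norm_num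
  have e5 : (27 : ℝ) * kρ (((5 : ℕ) : ℤ), 1) = ((3 : ℕ) : ℝ) := by simp [kρ]; norm_num
  rw [e0, e1, e2, e3, e4, e5]
  simp only [Real.rpow_natCast]
  simp [km]
  norm_num

theorem lam_nonneg : 0 ≤ Lam 6 km kC kρ := by
  unfold Lam
  exact Finset.prod_nonneg fun i _ => Real.rpow_nonneg (by positivity) _

theorem lam_lt_one : Lam 6 km kC kρ < 1 := by
  have h := lam_pow
  by_contra hcon
  push Not at hcon
  have h2 : (1 : ℝ) ≤ Lam 6 km kC kρ ^ 27 := one_le_pow₀ hcon
  rw [h] at h2
  norm_num at h2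

end Pool.Agent.H749.Kak
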