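import Mathlib
import Pool.Agent.H319R2.LeighBridge

set_option autoImplicit false

/-!
Kakutani's `7x+1` map as a generalised Collatz map modulo 30: the data, the class of Leigh's chain (all
residue classes modulo 30) and the number `Λ < 1`.
-/

namespace Pool.Agent.H749.Kak7

open Finset Pool.Agent.H319R2.Leigh

/-- the map: `n/2` if `2 ∣ n`, otherwise `n/3` if `3 ∣ n`, otherwise `n/5` if `5 ∣ n`, otherwise `7n+1` -/
def C (n : ℕ) : ℕ :=
  if n % 2 = 0 then n / 2 else if n % 3 = 0 then n / 3 else if n % 5 = 0 then n / 5 else 7 * n + 1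

def km (i : ℤ) : ℤ := if i % 2 = 0 then 15 else if i % 3 = 0 then 10 else if i % 5 = 0 then 6 else 210
def kr (i : ℤ) : ℤ := if i % 2 = 0 then 0 else if i % 3 = 0 then 0 else if i % 5 = 0 then 0 else -30
def kb (i : ℤ) : ℤ := if i % 2 = 0 then 1 else if i % 3 = 0 then 1 else if i % 5 = 0 then 1 else 7
def ke (i : ℤ) : ℕ := if i % 2 = 0 then 15 else if i % 3 = 0 then 10 else if i % 5 = 0 then 6 else 30

theorem ke_cases (i : ℤ) : ke i = 15 ∨ ke i = 10 ∨ ke i = 6 ∨ ke i = 30 := by
  unfold ke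
  split_ifs <;> simp

theorem ke_dvd (i : ℤ) : ke i ∣ 30 := by
  rcases ke_cases i with h | h | h | h <;> rw [h] <;> norm_num

theorem kdata : Data 30 km kr kb ke where
  two_le := by norm_num
  fac := by
    intro i _ _
    unfold km kb ke
    split_ifs <;> norm_num
  cop := by
    intro i _ _
    unfold kb
    split_ifs <;> first | exact isCoprime_one_left | exact ⟨13, -3, by norm_num⟩
  pos := by
    intro i _ _
    rcases ke_cases i with h | h | h | h <;> rw [h] <;> norm_num
  dvd_pow := by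
    intro i _ _
    exact ⟨1, by rw [pow_one]; exact ke_dvd i⟩
  cong := by
    intro i _ _
    unfold kr km
    split_ifs with h1 h2 h3
    · exact (Int.modEq_zero_iff_dvd.2 (by push_cast; omega)).symm
    · exact (Int.modEq_zero_iff_dvd.2 (by push_cast; omega)).symm
    · exact (Int.modEq_zero_iff_dvd.2 (by push_cast; omega)).symm
    · exact (Int.modEq_iff_dvd.2 (by push_cast; omega))

theorem T_eq (n : ℕ) : T 30 km kr (n : ℤ) = ((C n : ℕ) : ℤ) := by
  have key : ∀ q : ℤ, (((n : ℤ) % ((30 : ℕ) : ℤ)) % q = (n : ℤ) % q) ∨ ¬ (q ∣ 30) := by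
    intro q
    by_cases hq : q ∣ 30
    · left
      push_cast
      exact Int.emod_emod_of_dvd _ hq
    · right; exact hq
  have k2 := (key 2).resolve_right (by norm_num)
  have k3 := (key 3).resolve_right (by norm_num)
  have k5 := (key 5).resolve_right (by norm_num)
  unfold T C km kr
  rw [k2, k3, k5]
  by_cases h2 : n % 2 = 0
  · have h2' : (n : ℤ) % 2 = 0 := by omega
    rw [if_pos h2', if_pos h2', if_pos h2]
    push_cast
    omega
  · have h2' : ¬ (n : ℤ) % 2 = 0 := by omega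
    rw [if_neg h2', if_neg h2', if_neg h2]
    by_cases h3 : n % 3 = 0
    · have h3' : (n : ℤ) % 3 = 0 := by omega
      rw [if_pos h3', if_pos h3', if_pos h3]
      push_cast
      omega
    · have h3' : ¬ (n : ℤ) % 3 = 0 := by omega
      rw [if_neg h3', if_neg h3', if_neg h3]
      by_cases h5 : n % 5 = 0
      · have h5' : (n : ℤ) % 5 = 0 := by omega
        rw [if_pos h5', if_pos h5', if_pos h5]
        push_cast
        omega
      · have h5' : ¬ (n : ℤ) % 5 = 0 := by omega
        rw [if_neg h5', if_neg h5', if_neg h5]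
        push_cast
        omega

theorem iter_eq (k : ℕ) : ∀ n : ℕ, (T 30 km kr)^[k] (n : ℤ) = ((C^[k] n : ℕ) : ℤ) := by
  induction k with
  | zero => intro n; rfl
  | succ k ih => intro n; rw [Function.iterate_succ_apply, Function.iterate_succ_apply, T_eq, ih]

/-- the states -/
def kC : Finset (ℤ × ℕ) := (range 30).image fun n : ℕ => ((n : ℤ), 1)

/-- the weights: `7302330` times the stationary distribution -/
def w (n : ℕ) : ℕ := [457740, 237030, 246776, 170181, 149362, 284575, 186570, 291150, 298724, 230688, 194100,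
  206385, 373140, 172095, 306272, 343305, 123388, 228870, 299670, 287130, 388200, 243297, 153136, 211680,
  322920, 365450, 76568, 242559, 38284, 173085].getD n 0

/-- the stationary distribution -/
noncomputable def kρ (B : ℤ × ℕ) : ℝ := (w B.1.toNat : ℝ) / 7302330

/-- `30` times the transition probabilities -/
def cN (i j : ℕ) : ℕ := if (T 30 km kr (i : ℤ) - j) % (ke i : ℤ) = 0 then ke i else 0

theorem mem_kC (B : ℤ × ℕ) : B ∈ kC ↔ ∃ n : ℕ, n < 30 ∧ B = ((n : ℤ), 1) := by
  unfold kC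
  simp only [mem_image, mem_range]
  constructor
  · rintro ⟨n, hn, rfl⟩; exact ⟨n, hn, rfl⟩
  · rintro ⟨n, hn, rfl⟩; exact ⟨n, hn, rfl⟩

theorem gcd_ke (i : ℤ) : Nat.gcd (1 * ke i) 30 = ke i := by
  rw [one_mul]
  exact Nat.gcd_eq_left (ke_dvd i)

theorem ke_pos (i : ℤ) : 0 < ke i := by
  rcases ke_cases i with h | h | h | h <;> rw [h] <;> norm_num

theorem P_val (i j : ℕ) (hi : i < 30) (hj : j < 30) :
    P 30 km kr ke ((i : ℤ), 1) ((j : ℤ), 1) = (cN i j : ℝ) / 30 := by
  unfold P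
  have hm : ((i : ℤ)) % ((30 : ℕ) : ℤ) = i := by push_cast; omega
  simp only
  rw [hm, gcd_ke, one_mul, Nat.div_self (ke_pos _)]
  unfold cN
  by_cases h : (T 30 km kr (i : ℤ) - j) % (ke i : ℤ) = 0
  · rw [if_pos h, if_pos]
    · norm_num
    · refine ⟨rfl, by positivity, by push_cast; omega, ?_⟩
      exact (Int.modEq_iff_dvd.2 (by
        have := Int.dvd_of_emod_eq_zero h
        rw [← dvd_neg, neg_sub] at this
        exact this))
  · rw [if_neg h, if_neg]
    · simp
    · rintro ⟨-, -, -, h4⟩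
      apply h
      have h5 := Int.ModEq.dvd h4
      rw [← dvd_neg, neg_sub] at h5
      exact Int.emod_eq_zero_of_dvd h5

theorem P_pos_mem {B B' : ℤ × ℕ} (hB : B ∈ kC) (h : 0 < P 30 km kr ke B B') : B' ∈ kC := by
  rw [mem_kC] at hB ⊢
  obtain ⟨n, hn, rfl⟩ := hB
  unfold P at h
  split_ifs at h with hc
  · obtain ⟨hc1, hc2, hc3, -⟩ := hc
    simp only at hc1 hc2 hc3
    rw [gcd_ke, one_mul, Nat.div_self (ke_pos _)] at hc1
    obtain ⟨j, l⟩ := B'
    simp only at hc1 hc2 hc3
    subst hc1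
    refine ⟨j.toNat, ?_, ?_⟩
    · push_cast at hc3; omega
    · rw [Int.toNat_of_nonneg hc2]
  · exact absurd h (lt_irrefl 0)

/-- next state on a path to `0`, and the length of the path -/
def nx (n : ℕ) : ℕ := [0, 8, 1, 21, 17, 25, 3, 20, 4, 3, 5, 18, 21, 2, 7, 25, 8, 0, 9, 14, 25, 17, 11, 12, 12, 17,
  13, 9, 29, 24].getD n 0
def nl (n : ℕ) : ℕ := [0, 4, 5, 3, 2, 3, 4, 4, 3, 4, 4, 6, 3, 6, 5, 3, 4, 1, 5, 6, 3, 2, 7, 4, 4, 2, 7, 5, 6,
  5].getD n 0

/-- previous state on a path from `0`, and the length of the path -/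
def pv (n : ℕ) : ℕ := [0, 5, 13, 9, 8, 15, 12, 5, 1, 18, 20, 25, 23, 5, 19, 0, 2, 25, 11, 5, 7, 12, 14, 25, 29, 15,
  22, 24, 26, 25].getD n 0
def pl (n : ℕ) : ℕ := [0, 3, 4, 6, 5, 2, 5, 3, 4, 5, 5, 3, 4, 3, 4, 1, 5, 3, 4, 3, 4, 5, 5, 3, 4, 2, 6, 5, 7,
  3].getD n 0

theorem nx_spec : ∀ n < 30, n = 0 ∨ (nx n < 30 ∧ 0 < cN n (nx n) ∧ nl (nx n) < nl n) := by
  decide +kernel

theorem pv_spec : ∀ n < 30, n = 0 ∨ (pv n < 30 ∧ 0 < cN (pv n) n ∧ pl (pv n) < pl n) := by
  decide +kernel

theorem stat_nat : ∀ j < 30, ∑ i ∈ range 30, w i * cN i j = 30 * w j := by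
  decide +kernel

theorem sum_w : ∑ i ∈ range 30, w i = 7302330 := by
  decide +kernel

theorem step {i j : ℕ} (hi : i < 30) (hj : j < 30) (h : 0 < cN i j) :
    Relation.ReflTransGen (fun X Y => 0 < P 30 km kr ke X Y) ((i : ℤ), 1) ((j : ℤ), 1) := by
  apply Relation.ReflTransGen.single
  rw [P_val i j hi hj]
  have : (0 : ℝ) < cN i j := by exact_mod_cast h
  positivity

theorem to_zero (l : ℕ) : ∀ n : ℕ, n < 30 → nl n ≤ l →
    Relation.ReflTransGen (fun X Y => 0 < P 30 km kr ke X Y) ((n : ℤ), 1) (((0 : ℕ) : ℤ), 1) := by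
  induction l with
  | zero =>
    intro n hn hl
    rcases nx_spec n hn with h | ⟨_, _, h⟩
    · subst h; exact Relation.ReflTransGen.refl
    · omega
  | succ l ih =>
    intro n hn hl
    rcases nx_spec n hn with h | ⟨h1, h2, h3⟩
    · subst h; exact Relation.ReflTransGen.refl
    · exact (step hn h1 h2).trans (ih _ h1 (by omega))

theorem from_zero (l : ℕ) : ∀ n : ℕ, n < 30 → pl n ≤ l →
    Relation.ReflTransGen (fun X Y => 0 < P 30 km kr ke X Y) (((0 : ℕ) : ℤ), 1) ((n : ℤ), 1) := by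
  induction l with
  | zero =>
    intro n hn hl
    rcases pv_spec n hn with h | ⟨_, _, h⟩
    · subst h; exact Relation.ReflTransGen.refl
    · omega
  | succ l ih =>
    intro n hn hl
    rcases pv_spec n hn with h | ⟨h1, h2, h3⟩
    · subst h; exact Relation.ReflTransGen.refl
    · exact (ih _ h1 (by omega)).trans (step h1 hn h2)

theorem sum_kC (f : ℤ × ℕ → ℝ) : ∑ B ∈ kC, f B = ∑ i ∈ range 30, f ((i : ℤ), 1) := by
  unfold kC
  rw [sum_image]
  intro a _ b _ hab
  simpa using hab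

theorem kρ_val (n : ℕ) : kρ ((n : ℤ), 1) = (w n : ℝ) / 7302330 := by
  unfold kρ
  simp

theorem kclass : Class 30 km kr ke kC kρ where
  state := by
    intro B hB
    rw [mem_kC] at hB
    obtain ⟨n, hn, rfl⟩ := hB
    refine ⟨by positivity, by push_cast; omega, 0, by simp⟩
  closed := fun B hB B' h => P_pos_mem hB h
  comm := by
    intro B hB B' hB'
    rw [mem_kC] at hB hB'
    obtain ⟨i, hi, rfl⟩ := hB
    obtain ⟨j, hj, rfl⟩ := hB'
    exact (to_zero _ i hi le_rfl).trans (from_zero _ j hj le_rfl)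
  nonneg := by
    intro B _
    unfold kρ
    positivity
  sum_one := by
    rw [sum_kC]
    simp only [kρ_val]
    rw [← sum_div, ← Nat.cast_sum, sum_w]
    norm_num
  stat := by
    intro B' hB'
    rw [mem_kC] at hB'
    obtain ⟨j, hj, rfl⟩ := hB'
    rw [sum_kC, kρ_val]
    have h : ∀ i ∈ range 30, kρ ((i : ℤ), 1) * P 30 km kr ke ((i : ℤ), 1) ((j : ℤ), 1) =
        ((w i * cN i j : ℕ) : ℝ) / (7302330 * 30) := by
      intro i hi
      rw [kρ_val, P_val i j (mem_range.1 hi) hj]
      push_cast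
      ring
    rw [sum_congr rfl h, ← sum_div, ← Nat.cast_sum, stat_nat j hj]
    push_cast
    ring

theorem mem_S (x : ℤ) : x ∈ S 30 kC := by
  refine ⟨(x % 30, 1), ?_, ?_⟩
  · rw [mem_kC]
    refine ⟨(x % 30).toNat, by omega, ?_⟩
    rw [Int.toNat_of_nonneg (by omega)]
  · show x ≡ x % 30 [ZMOD ((30 * 1 : ℕ) : ℤ)]
    exact (Int.mod_modEq x 30).symm

theorem freq_val (i : ℕ) (hi : i < 30) : freq 30 kC kρ i = (w i : ℝ) / 7302330 := by
  unfold freq
  rw [sum_filter, sum_kC, sum_eq_single i]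
  · rw [if_pos (by push_cast; omega), kρ_val]
  · intro b hb hne
    rw [if_neg]
    simp only [mem_range] at hb
    push_cast
    omega
  · intro h
    exact absurd (mem_range.2 hi) h

/-- the logarithm of the multiplier -/
theorem log_km (i : ℕ) : Real.log (|(km (i : ℤ) : ℝ)| / ((30 : ℕ) : ℝ)) =
    if i % 2 = 0 then -Real.log 2 else if i % 3 = 0 then -Real.log 3 else if i % 5 = 0 then -Real.log 5
      else Real.log 7 := by
  unfold km
  by_cases h2 : i % 2 = 0
  · have h2' : (i : ℤ) % 2 = 0 := by omega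
    rw [if_pos h2', if_pos h2, ← Real.log_inv]
    norm_num
  · have h2' : ¬ (i : ℤ) % 2 = 0 := by omega
    rw [if_neg h2', if_neg h2]
    by_cases h3 : i % 3 = 0
    · have h3' : (i : ℤ) % 3 = 0 := by omega
      rw [if_pos h3', if_pos h3, ← Real.log_inv]
      norm_num
    · have h3' : ¬ (i : ℤ) % 3 = 0 := by omega
      rw [if_neg h3', if_neg h3]
      by_cases h5 : i % 5 = 0
      · have h5' : (i : ℤ) % 5 = 0 := by omega
        rw [if_pos h5', if_pos h5, ← Real.log_inv]
        norm_num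
      · have h5' : ¬ (i : ℤ) % 5 = 0 := by omega
        rw [if_neg h5', if_neg h5]
        norm_num

theorem km_pos (i : ℕ) : 0 < |(km (i : ℤ) : ℝ)| / ((30 : ℕ) : ℝ) := by
  unfold km
  split_ifs <;> norm_num

/-- the frequencies of the divisions by `2`, `3`, `5` and of the steps `7x+1` -/
theorem log_lam : 7302330 * Real.log (Lam 30 km kC kρ) =
    1807425 * Real.log 7 - 3614850 * Real.log 2 - 1230030 * Real.log 3 - 650025 * Real.log 5 := by
  unfold Lam
  rw [Real.log_prod (fun i _ => (Real.rpow_pos_of_pos (km_pos i) _).ne')]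
  have h : ∀ i ∈ range 30, Real.log ((|(km (i : ℤ) : ℝ)| / ((30 : ℕ) : ℝ)) ^ freq 30 kC kρ i) =
      (w i : ℝ) / 7302330 * (if i % 2 = 0 then -Real.log 2 else if i % 3 = 0 then -Real.log 3 else
        if i % 5 = 0 then -Real.log 5 else Real.log 7) := by
    intro i hi
    rw [Real.log_rpow (km_pos i), freq_val i (mem_range.1 hi), log_km]
  rw [sum_congr rfl h]
  simp only [sum_range_succ, sum_range_zero]
  norm_num [w]
  ring

theorem lam_nonneg : 0 ≤ Lam 30 km kC kρ := by
  unfold Lam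
  exact Finset.prod_nonneg fun i _ => Real.rpow_nonneg (by positivity) _

theorem lam_pos : 0 < Lam 30 km kC kρ := by
  unfold Lam
  exact Finset.prod_pos fun i _ => Real.rpow_pos_of_pos (km_pos i) _

theorem lam_lt_one : Lam 30 km kC kρ < 1 := by
  have h := log_lam
  have h1 : 3 * Real.log 7 - 6 * Real.log 2 < 2 * Real.log 3 := by
    have e1 : 3 * Real.log 7 = Real.log (7 ^ 3) := by rw [Real.log_pow]; norm_num
    have e2 : 6 * Real.log 2 = Real.log (2 ^ 6) := by rw [Real.log_pow]; norm_num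
    have e3 : 2 * Real.log 3 = Real.log (3 ^ 2) := by rw [Real.log_pow]; norm_num
    rw [e1, e2, e3, sub_lt_iff_lt_add, ← Real.log_mul (by norm_num) (by norm_num)]
    exact Real.log_lt_log (by norm_num) (by norm_num)
  have h3 : 0 < Real.log 3 := Real.log_pos (by norm_num)
  have h5 : 0 < Real.log 5 := Real.log_pos (by norm_num)
  have h2 : Real.log (Lam 30 km kC kρ) < 0 := by nlinarith
  exact (Real.log_neg_iff lam_pos).1 h2

end Pool.Agent.H749.Kak7
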